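import Pool.Agent.Q43.PM.Defs

open Pointwise

namespace Q43.PM

section General

variable {M : Type*} [Monoid M]

theorem mem_unions {k m : ℕ} : m ∈ Unions M k ↔ ∃ x : M, k ∈ Lengths x ∧ m ∈ Lengths x := by
  simp [Unions]

theorem unions_symm {k m : ℕ} : m ∈ Unions M k ↔ k ∈ Unions M m := by
  rw [mem_unions, mem_unions]
  constructor <;> rintro ⟨x, h1, h2⟩ <;> exact ⟨x, h2, h1⟩

theorem len_mul {x y : M} {m n : ℕ} (hx : m ∈ Lengths x) (hy : n ∈ Lengths y) :
    m + n ∈ Lengths (x * y) := by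
  obtain ⟨v, hv, rfl, rfl⟩ := hx
  obtain ⟨w, hw, rfl, rfl⟩ := hy
  refine ⟨v ++ w, ?_, by simp, by simp⟩
  intro a ha
  rcases List.mem_append.mp ha with h | h
  · exact hv a h
  · exact hw a h

theorem len_irred {a : M} (ha : Irred a) : 1 ∈ Lengths a :=
  ⟨[a], by simpa using ha, by simp, rfl⟩

theorem irred_of_len {a : M} (h : 1 ∈ Lengths a) : Irred a := by
  obtain ⟨w, hw, rfl, hl⟩ := h
  obtain ⟨b, rfl⟩ := List.length_eq_one_iff.mp hl
  simpa using hw

theorem len_pow {a : M} (ha : Irred a) (m : ℕ) : m ∈ Lengths (a ^ m) := by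
  induction m with
  | zero => rw [pow_zero, lengths_one]; rfl
  | succ m ih => rw [pow_succ]; exact len_mul ih (len_irred ha)

theorem len_zero {x : M} (h : 0 ∈ Lengths x) : x = 1 := by
  obtain ⟨w, hw, rfl, hl⟩ := h
  rw [List.length_eq_zero_iff.mp hl]
  rfl

theorem zero_notMem_unions {k : ℕ} (hk : 1 ≤ k) : 0 ∉ Unions M k := by
  rw [mem_unions]
  rintro ⟨x, h1, h2⟩
  rw [len_zero h2, lengths_one] at h1
  have : k = 0 := h1
  omega

/-- If `2` and `j` are lengths of a common element for every `j ≥ 2`, then all unions with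
`k ≥ 2` contain everything from `2` on. -/
theorem unions_of_two {c : M} (hc : Irred c)
    (h : ∀ j, 2 ≤ j → ∃ x : M, 2 ∈ Lengths x ∧ j ∈ Lengths x) {k m : ℕ} (hk : 2 ≤ k)
    (hm : 2 ≤ m) : m ∈ Unions M k := by
  have key : ∀ k m : ℕ, 2 ≤ k → k ≤ m → m ∈ Unions M k := by
    intro k m hk hkm
    obtain ⟨x, h2, hj⟩ := h (m - k + 2) (by omega)
    rw [mem_unions]
    refine ⟨x * c ^ (k - 2), ?_, ?_⟩
    · have := len_mul h2 (len_pow hc (k - 2))
      rwa [show 2 + (k - 2) = k by omega] at this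
    · have := len_mul hj (len_pow hc (k - 2))
      rwa [show m - k + 2 + (k - 2) = m by omega] at this
  rcases le_total k m with h | h
  · exact key k m hk h
  · exact unions_symm.mpr (key m k hm h)

end General

variable {H : Type*} [Monoid H]

theorem one_memP (X : PfinOne H) : (1 : H) ∈ (X : Set H) := X.2.2

theorem finiteP (X : PfinOne H) : (X : Set H).Finite := X.2.1

theorem mem_mulP {X Y : PfinOne H} {z : H} :
    z ∈ ((X * Y : PfinOne H) : Set H) ↔ ∃ x ∈ (X : Set H), ∃ y ∈ (Y : Set H), x * y = z :=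
  Set.mem_mul

theorem subset_mul_left (X Y : PfinOne H) : (X : Set H) ⊆ ((X * Y : PfinOne H) : Set H) :=
  fun x hx => mem_mulP.mpr ⟨x, hx, 1, one_memP Y, mul_one x⟩

theorem subset_mul_right (X Y : PfinOne H) : (Y : Set H) ⊆ ((X * Y : PfinOne H) : Set H) :=
  fun y hy => mem_mulP.mpr ⟨1, one_memP X, y, hy, one_mul y⟩

theorem ext_of {X Y : PfinOne H} (h1 : (X : Set H) ⊆ Y) (h2 : (Y : Set H) ⊆ X) : X = Y :=
  Subtype.ext (Set.Subset.antisymm h1 h2)

theorem Divides.subset {X Y : PfinOne H} (h : Divides X Y) : (X : Set H) ⊆ Y := by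
  obtain ⟨u, v, rfl⟩ := h
  exact (subset_mul_right u X).trans (subset_mul_left (u * X) v)

theorem coe_oneP : ((1 : PfinOne H) : Set H) = {1} := rfl

theorem exists_ne_one {X : PfinOne H} (h : X ≠ 1) : ∃ x ∈ (X : Set H), x ≠ 1 := by
  by_contra hc
  push Not at hc
  apply h
  apply ext_of
  · intro x hx
    rw [coe_oneP]
    exact hc x hx
  · intro x hx
    rw [coe_oneP] at hx
    rw [Set.mem_singleton_iff.mp hx]
    exact one_memP X

theorem ne_one_of_mem {X : PfinOne H} {x : H} (hx : x ∈ (X : Set H)) (h1 : x ≠ 1) : X ≠ 1 := by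
  rintro rfl
  rw [coe_oneP] at hx
  exact h1 hx

theorem unitDivisor_iff {X : PfinOne H} : UnitDivisor X ↔ X = 1 := by
  constructor
  · intro h
    by_contra hX
    obtain ⟨x, hx, h1⟩ := exists_ne_one hX
    have := Divides.subset h hx
    rw [coe_oneP] at this
    exact h1 this
  · rintro rfl
    exact ⟨1, 1, by simp⟩

theorem irred_iff {A : PfinOne H} :
    Irred A ↔ A ≠ 1 ∧ ∀ B C : PfinOne H, A = B * C → B = A ∨ C = A ∨ B = 1 ∨ C = 1 := by
  constructor
  · rintro ⟨h1, h2⟩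
    refine ⟨fun h => h1 (unitDivisor_iff.mpr h), ?_⟩
    intro B C hBC
    by_contra hcon
    push Not at hcon
    obtain ⟨hB, hC, hB1, hC1⟩ := hcon
    have hBA : Divides B A := ⟨1, C, by rw [hBC, one_mul]⟩
    have hCA : Divides C A := ⟨B, 1, by rw [hBC, mul_one]⟩
    exact h2 ⟨B, C, hBC, ⟨hBA, fun h => hB (ext_of hBA.subset h.subset)⟩,
      ⟨hCA, fun h => hC (ext_of hCA.subset h.subset)⟩,
      fun h => hB1 (unitDivisor_iff.mp h), fun h => hC1 (unitDivisor_iff.mp h)⟩
  · rintro ⟨h1, h2⟩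
    refine ⟨fun h => h1 (unitDivisor_iff.mp h), ?_⟩
    rintro ⟨B, C, hBC, hB, hC, hB1, hC1⟩
    have hrefl : ∀ X : PfinOne H, Divides X X := fun X => ⟨1, 1, by simp⟩
    rcases h2 B C hBC with h | h | h | h
    · exact hB.2 (by rw [h]; exact hrefl A)
    · exact hC.2 (by rw [h]; exact hrefl A)
    · exact hB1 (unitDivisor_iff.mpr h)
    · exact hC1 (unitDivisor_iff.mpr h)

/-- The set `{1, z}`. -/
def pair (z : H) : PfinOne H := ⟨{1, z}, by simp, by simp⟩

theorem mem_pair {z y : H} : y ∈ (pair z : Set H) ↔ y = 1 ∨ y = z := Iff.rfl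

theorem irred_pair {z : H} (hz : z ≠ 1) : Irred (pair z) := by
  rw [irred_iff]
  refine ⟨ne_one_of_mem (mem_pair.mpr (Or.inr rfl)) hz, ?_⟩
  intro B C hBC
  by_cases hB : B = 1
  · exact Or.inr (Or.inr (Or.inl hB))
  · left
    obtain ⟨b, hb, hb1⟩ := exists_ne_one hB
    have hsub : (B : Set H) ⊆ pair z := by
      rw [hBC]; exact subset_mul_left B C
    apply ext_of hsub
    intro y hy
    rcases mem_pair.mp hy with rfl | rfl
    · exact one_memP B
    · rcases mem_pair.mp (hsub hb) with h | h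
      · exact absurd h hb1
      · rwa [← h]

/-- A set `A` in which `u v ∈ A` with `u, v ≠ 1` forces `u = v = u0` is irreducible, when it has
an element outside `1, u0, u0 * u0`. -/
theorem irred_of_free (A : PfinOne H) (u0 s : H) (hs : s ∈ (A : Set H)) (hs1 : s ≠ 1)
    (hs2 : s ≠ u0) (hs3 : s ≠ u0 * u0)
    (h : ∀ u ∈ (A : Set H), ∀ v ∈ (A : Set H), u ≠ 1 → v ≠ 1 → u * v ∈ (A : Set H) →
      u = u0 ∧ v = u0) : Irred A := by
  rw [irred_iff]
  refine ⟨ne_one_of_mem hs hs1, ?_⟩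
  intro B C hBC
  by_contra hcon
  push Not at hcon
  obtain ⟨-, -, hB1, hC1⟩ := hcon
  have hBA : (B : Set H) ⊆ A := by rw [hBC]; exact subset_mul_left B C
  have hCA : (C : Set H) ⊆ A := by rw [hBC]; exact subset_mul_right B C
  obtain ⟨b, hb, hb1⟩ := exists_ne_one hB1
  obtain ⟨c, hc, hc1⟩ := exists_ne_one hC1
  have hprod : ∀ u ∈ (B : Set H), ∀ v ∈ (C : Set H), u * v ∈ (A : Set H) := by
    intro u hu v hv
    rw [hBC]
    exact mem_mulP.mpr ⟨u, hu, v, hv, rfl⟩
  have hB : ∀ u ∈ (B : Set H), u = 1 ∨ u = u0 := by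
    intro u hu
    by_cases hu1 : u = 1
    · exact Or.inl hu1
    · exact Or.inr (h u (hBA hu) c (hCA hc) hu1 hc1 (hprod u hu c hc)).1
  have hC : ∀ v ∈ (C : Set H), v = 1 ∨ v = u0 := by
    intro v hv
    by_cases hv1 : v = 1
    · exact Or.inl hv1
    · exact Or.inr (h b (hBA hb) v (hCA hv) hb1 hv1 (hprod b hb v hv)).2
  rw [hBC] at hs
  obtain ⟨u, hu, v, hv, huv⟩ := mem_mulP.mp hs
  rcases hB u hu with rfl | rfl <;> rcases hC v hv with rfl | rfl
  · exact hs1 (by rw [← huv, one_mul])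
  · exact hs2 (by rw [← huv, one_mul])
  · exact hs2 (by rw [← huv, mul_one])
  · exact hs3 huv.symm

/-- An absorbing product of two irreducibles has all lengths from `2` on. -/
theorem lengths_absorbing {A B : PfinOne H} (hA : Irred A) (hB : Irred B) {z : H} (hz : z ≠ 1)
    (habs : A * B * pair z = A * B) {j : ℕ} (hj : 2 ≤ j) : j ∈ Lengths (A * B) := by
  induction j, hj using Nat.le_induction with
  | base => exact len_mul (len_irred hA) (len_irred hB)
  | succ n hn ih =>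
    rw [← habs]
    exact len_mul ih (len_irred (irred_pair hz))

/-- The powers `1, x, …, x ^ n`. -/
def powers (x : H) (n : ℕ) : PfinOne H :=
  ⟨(fun i => x ^ i) '' Set.Iic n, (Set.finite_Iic n).image _, ⟨0, by simp⟩⟩

theorem mem_powers {x y : H} {n : ℕ} : y ∈ (powers x n : Set H) ↔ ∃ i ≤ n, x ^ i = y := Iff.rfl

theorem pair_pow (x : H) (n : ℕ) : pair x ^ n = powers x n := by
  induction n with
  | zero =>
    rw [pow_zero]
    apply ext_of
    · intro y hy
      rw [coe_oneP] at hy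
      exact mem_powers.mpr ⟨0, le_rfl, by rw [pow_zero]; exact hy.symm⟩
    · intro y hy
      obtain ⟨i, hi, rfl⟩ := mem_powers.mp hy
      rw [Nat.le_zero.mp hi, pow_zero]
      exact one_memP 1
  | succ n ih =>
    rw [pow_succ, ih]
    apply ext_of
    · intro y hy
      obtain ⟨u, hu, v, hv, rfl⟩ := mem_mulP.mp hy
      obtain ⟨i, hi, rfl⟩ := mem_powers.mp hu
      rcases mem_pair.mp hv with rfl | rfl
      · exact mem_powers.mpr ⟨i, by omega, (mul_one _).symm⟩
      · exact mem_powers.mpr ⟨i + 1, by omega, pow_succ _ _⟩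
    · intro y hy
      obtain ⟨i, hi, rfl⟩ := mem_powers.mp hy
      rcases Nat.lt_or_ge i (n + 1) with h | h
      · exact mem_mulP.mpr ⟨x ^ i, mem_powers.mpr ⟨i, by omega, rfl⟩, 1,
          one_memP _, mul_one _⟩
      · have : i = n + 1 := by omega
        subst this
        exact mem_mulP.mpr ⟨x ^ n, mem_powers.mpr ⟨n, le_rfl, rfl⟩, x,
          mem_pair.mpr (Or.inr rfl), (pow_succ _ _).symm⟩

theorem pair_sq_mul (x : H) {n : ℕ} (hn : 1 ≤ n) : pair (x ^ 2) * powers x n = powers x (n + 2) := by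
  apply ext_of
  · intro y hy
    obtain ⟨u, hu, v, hv, rfl⟩ := mem_mulP.mp hy
    obtain ⟨i, hi, rfl⟩ := mem_powers.mp hv
    rcases mem_pair.mp hu with rfl | rfl
    · exact mem_powers.mpr ⟨i, by omega, (one_mul _).symm⟩
    · exact mem_powers.mpr ⟨2 + i, by omega, pow_add _ _ _⟩
  · intro y hy
    obtain ⟨i, hi, rfl⟩ := mem_powers.mp hy
    rcases Nat.lt_or_ge n i with h | h
    · refine mem_mulP.mpr ⟨x ^ 2, mem_pair.mpr (Or.inr rfl), x ^ (i - 2),
        mem_powers.mpr ⟨i - 2, by omega, rfl⟩, ?_⟩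
      rw [← pow_add]; congr 1; omega
    · exact mem_mulP.mpr ⟨1, one_memP _, x ^ i, mem_powers.mpr ⟨i, h, rfl⟩, one_mul _⟩

end Q43.PM
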