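import Mathlib

/-!
# Reduced finitary power monoids: lengths of factorizations and their unions
-/

open Pointwise

namespace Q43.PM

/-- The reduced finitary power monoid of `H`: the finite subsets of `H` that contain `1`,
with the setwise product `X * Y = {x * y | x ∈ X, y ∈ Y}`. -/
def PfinOne (H : Type*) [Monoid H] : Submonoid (Set H) where
  carrier := {X | X.Finite ∧ (1 : H) ∈ X}
  one_mem' := ⟨Set.finite_one, Set.one_mem_one⟩
  mul_mem' := fun hX hY =>
    ⟨hX.1.mul hY.1, Set.mem_mul.mpr ⟨1, hX.2, 1, hY.2, one_mul 1⟩⟩

section Factorizations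

variable {M : Type*} [Monoid M]

/-- `x` divides `y`, that is `y ∈ M x M`. -/
def Divides (x y : M) : Prop := ∃ u v : M, y = u * x * v

/-- `x` divides the identity. -/
def UnitDivisor (x : M) : Prop := Divides x 1

/-- `x` divides `y`, but `y` does not divide `x`. -/
def ProperDivisor (x y : M) : Prop := Divides x y ∧ ¬ Divides y x

/-- An irreducible: not a unit-divisor, and not the product of two proper divisors of itself
that are not unit-divisors. -/
def Irred (a : M) : Prop :=
  ¬ UnitDivisor a ∧
    ¬ ∃ b c : M, a = b * c ∧ ProperDivisor b a ∧ ProperDivisor c a ∧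
      ¬ UnitDivisor b ∧ ¬ UnitDivisor c

/-- The set of lengths of `x`: the lengths of the words of irreducibles with product `x`. The
empty word has product `1`; a nonempty word of irreducibles has never a unit-divisor as its
product, so this is `{0}` at `1` and empty at the other unit-divisors
(`lengths_one`, `lengths_unitDivisor` below). -/
def Lengths (x : M) : Set ℕ :=
  {m | ∃ w : List M, (∀ a ∈ w, Irred a) ∧ w.prod = x ∧ w.length = m}

/-- The union of all sets of lengths that contain `k`. -/
def Unions (M : Type*) [Monoid M] (k : ℕ) : Set ℕ :=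
  ⋃ x ∈ {x : M | k ∈ Lengths x}, Lengths x

/-- A word of irreducibles whose product is a unit-divisor is empty. -/
theorem word_empty {w : List M} (hw : ∀ a ∈ w, Irred a) (h : UnitDivisor w.prod) : w = [] := by
  cases w with
  | nil => rfl
  | cons a t =>
    obtain ⟨u, v, huv⟩ := h
    exact absurd ⟨u, t.prod * v, by rw [huv, List.prod_cons]; simp only [mul_assoc]⟩
      (hw a (List.mem_cons_self)).1

/-- The convention `L(1) = {0}` holds for the definition above. -/
theorem lengths_one : Lengths (1 : M) = {0} := by
  ext m
  constructor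
  · rintro ⟨w, hw, hp, rfl⟩
    have : w = [] := word_empty hw (by rw [hp]; exact ⟨1, 1, by simp⟩)
    simp [this]
  · rintro rfl
    exact ⟨[], by simp, rfl, rfl⟩

/-- The convention `L(x) = ∅` at the unit-divisors `x ≠ 1` holds for the definition above. -/
theorem lengths_unitDivisor {x : M} (h : UnitDivisor x) (hx : x ≠ 1) : Lengths x = ∅ := by
  ext m
  constructor
  · rintro ⟨w, hw, hp, rfl⟩
    have : w = [] := word_empty hw (by rw [hp]; exact h)
    subst this
    exact absurd hp.symm hx
  · intro h
    exact absurd h (Set.notMem_empty m)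

end Factorizations

/-- A set of natural numbers is an interval when it is of the form
`{x | a ≤ x ≤ b}` with `a, b ∈ ℕ ∪ {∞}` (this includes the empty set). -/
def IsInterval (S : Set ℕ) : Prop :=
  ∃ a b : ℕ∞, S = {x : ℕ | a ≤ (x : ℕ∞) ∧ (x : ℕ∞) ≤ b}

end Q43.PM
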