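import Pool.Agent.Q43.PM.Five

open Pointwise

namespace Q43.PM

theorem order_odd {G : Type*} [Group G] (hN : NoSmallSquare G) {x : G}
    (hx : ∃ N, 1 ≤ N ∧ x ^ N = 1) : Odd (orderOf x) := by
  by_contra hcon
  rw [Nat.not_odd_iff_even] at hcon
  obtain ⟨k, hk⟩ := hcon
  have hpos : 0 < orderOf x := by
    obtain ⟨N, hN1, hN2⟩ := hx
    exact orderOf_pos_iff.mpr (isOfFinOrder_iff_pow_eq_one.mpr ⟨N, hN1, hN2⟩)
  apply hN
  refine ⟨x ^ k, ?_, Or.inl ?_⟩
  · intro h
    have := orderOf_dvd_of_pow_eq_one h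
    have := Nat.le_of_dvd (by omega) this
    omega
  · rw [← pow_add, ← hk, pow_orderOf_eq_one]

theorem two_lengths_group {G : Type*} [Group G] (hN : NoSmallSquare G) [Nontrivial G]
    (h5 : Nat.card G ≠ 5) (hfin : ∀ x : G, ∃ N, 1 ≤ N ∧ x ^ N = 1) :
    ∃ X : PfinOne G, ∀ j, 2 ≤ j → j ∈ Lengths X := by
  by_cases h : ∃ x : G, x ≠ 1 ∧ orderOf x ≠ 5
  · obtain ⟨x, hx1, hx5⟩ := h
    exact lengths_cyclic (order_odd hN (hfin x)) (fun h => hx1 (orderOf_eq_one_iff.mp h)) hx5
  · push Not at h
    have hexp : ∀ g : G, g ^ 5 = 1 := by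
      intro g
      by_cases hg : g = 1
      · rw [hg, one_pow]
      · rw [← h g hg, pow_orderOf_eq_one]
    obtain ⟨x, hx⟩ := exists_ne (1 : G)
    have hfinx : ((Subgroup.zpowers x : Subgroup G) : Set G).Finite := by
      have : IsOfFinOrder x := isOfFinOrder_iff_pow_eq_one.mpr ⟨5, by norm_num, hexp x⟩
      exact finite_zpowers.mpr this
    by_cases hy : ∃ y : G, y ∉ Subgroup.zpowers x
    · obtain ⟨y, hy⟩ := hy
      exact lengths_coset hfinx (Subgroup.mem_zpowers x) hx hy hexp
    · push Not at hy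
      exfalso
      apply h5
      rw [← orderOf_eq_card_of_forall_mem_zpowers hy]
      exact h x hx

/-- If every element of a monoid has a power equal to `1`, the monoid is a group. -/
theorem exists_group {H : Type*} [inst : Monoid H] (hfin : ∀ x : H, ∃ N, 1 ≤ N ∧ x ^ N = 1) :
    ∃ g : Group H, g.toDivInvMonoid.toMonoid = inst := by
  have hu : ∀ x : H, IsUnit x := by
    intro x
    obtain ⟨N, hN1, hN2⟩ := hfin x
    exact IsUnit.of_pow_eq_one hN2 (by omega)
  exact ⟨groupOfIsUnit hu, rfl⟩

theorem two_lengths {H : Type*} [inst : Monoid H] (hN : NoSmallSquare H) [Nontrivial H]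
    (h5 : Nat.card H ≠ 5) :
    ∀ j, 2 ≤ j → ∃ X : PfinOne H, 2 ∈ Lengths X ∧ j ∈ Lengths X := by
  by_cases hinf : ∃ x : H, Function.Injective fun n : ℕ => x ^ n
  · obtain ⟨x, hx⟩ := hinf
    exact fun j hj => two_lengths_infinite hx hj
  · push Not at hinf
    have hfin : ∀ x : H, ∃ N, 1 ≤ N ∧ x ^ N = 1 := fun x => finite_order hN (hinf x)
    obtain ⟨g, hg⟩ := exists_group hfin
    subst hg
    obtain ⟨X, hX⟩ := two_lengths_group hN h5 hfin
    exact fun j hj => ⟨X, hX 2 le_rfl, hX j hj⟩

theorem unions_five_group {G : Type*} [Group G] (hN : NoSmallSquare G) (h5 : Nat.card G = 5) :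
    Unions (PfinOne G) 1 = {1} ∧ Unions (PfinOne G) 2 = {2, 3} ∧
      Unions (PfinOne G) 3 = {m | 2 ≤ m} ∧
      ∀ k, 4 ≤ k → Unions (PfinOne G) k = {m | 3 ≤ m} := by
  have hnt : Nontrivial G := by
    rw [← not_subsingleton_iff_nontrivial]
    intro h
    rw [Nat.card_of_subsingleton (1 : G)] at h5
    omega
  obtain ⟨e⟩ := exists_iso h5
  set x := el e 1 with hx
  have hx1 : x ≠ 1 := el_ne_one e (i := 1) (by decide)
  have hx2 : x ^ 2 ≠ 1 := by
    have : x ^ 2 = el e (1 + 1) := by rw [el_add, pow_two]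
    rw [this]
    exact el_ne_one e (by decide)
  have hx5 : x ^ 5 = 1 := by
    have : x ^ 5 = el e (1 + 1 + 1 + 1 + 1) := by
      simp only [el_add]
      simp only [pow_succ, pow_zero, one_mul, hx]
    rw [this, show (1 + 1 + 1 + 1 + 1 : ZMod 5) = 0 by decide, el_zero]
  have hpowall : ∀ m, 4 ≤ m → powers x m = powers x 4 := by
    intro m hm
    apply ext_of
    · intro y hy
      obtain ⟨i, -, rfl⟩ := mem_powers.mp hy
      refine mem_powers.mpr ⟨i % 5, by omega, ?_⟩
      conv_rhs => rw [← Nat.div_add_mod i 5, pow_add, pow_mul, hx5, one_pow, one_mul]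
    · intro y hy
      obtain ⟨i, hi, rfl⟩ := mem_powers.mp hy
      exact mem_powers.mpr ⟨i, by omega, rfl⟩
  have hlen : ∀ m, m ∈ Lengths (powers x m) := by
    intro m
    rw [← pair_pow]
    exact len_pow (irred_pair hx1) m
  have h2of3 : 3 ∈ Unions (PfinOne G) 2 := by
    rw [mem_unions]
    refine ⟨powers x 3, ?_, hlen 3⟩
    have h1 := len_mul (len_irred (irred_pair hx2)) (hlen 1)
    rwa [pair_sq_mul x le_rfl] at h1
  have hbig : ∀ m, 3 ≤ m → m ∈ Lengths (powers x 4) := by
    intro m hm
    rcases Nat.lt_or_ge m 4 with h | h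
    · have : m = 3 := by omega
      subst this
      have h1 := len_mul (len_irred (irred_pair hx2)) (hlen 2)
      rwa [pair_sq_mul x (by norm_num)] at h1
    · rw [← hpowall m h]
      exact hlen m
  have hnot : ∀ m, 4 ≤ m → m ∉ Unions (PfinOne G) 2 := by
    intro m hm h
    rw [mem_unions] at h
    obtain ⟨X, h2, hmX⟩ := h
    obtain ⟨g, hg⟩ := two_not_univ e h2
    exact hg (four_univ e hm hmX g)
  refine ⟨unions_one hN, ?_, ?_, ?_⟩
  · ext m
    constructor
    · intro hm
      have h0 : m ≠ 0 := by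
        rintro rfl; exact zero_notMem_unions (by norm_num) hm
      have h1 : m ≠ 1 := by
        rintro rfl; exact one_notMem_unions hN le_rfl hm
      have h4 : m < 4 := by
        by_contra h; exact hnot m (by omega) hm
      simp only [Set.mem_insert_iff, Set.mem_singleton_iff]
      omega
    · intro hm
      simp only [Set.mem_insert_iff, Set.mem_singleton_iff] at hm
      rcases hm with rfl | rfl
      · rw [mem_unions]; exact ⟨powers x 2, hlen 2, hlen 2⟩
      · exact h2of3
  · ext m
    simp only [Set.mem_ofPred_eq]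
    constructor
    · intro hm
      have h0 : m ≠ 0 := by
        rintro rfl; exact zero_notMem_unions (by norm_num) hm
      have h1 : m ≠ 1 := by
        rintro rfl; exact one_notMem_unions hN (by norm_num) hm
      omega
    · intro hm
      rcases Nat.lt_or_ge m 3 with h | h
      · have : m = 2 := by omega
        subst this
        exact unions_symm.mpr h2of3
      · rw [mem_unions]
        exact ⟨powers x 4, hbig 3 le_rfl, hbig m h⟩
  · intro k hk
    ext m
    simp only [Set.mem_ofPred_eq]
    constructor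
    · intro hm
      have h0 : m ≠ 0 := by
        rintro rfl; exact zero_notMem_unions (by omega) hm
      have h1 : m ≠ 1 := by
        rintro rfl; exact one_notMem_unions hN (by omega) hm
      have h2 : m ≠ 2 := by
        rintro rfl
        exact hnot k hk (unions_symm.mpr hm)
      omega
    · intro hm
      rw [mem_unions]
      exact ⟨powers x 4, hbig k (by omega), hbig m hm⟩

theorem unions_five {H : Type*} [inst : Monoid H] (hN : NoSmallSquare H) (h5 : Nat.card H = 5) :
    Unions (PfinOne H) 1 = {1} ∧ Unions (PfinOne H) 2 = {2, 3} ∧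
      Unions (PfinOne H) 3 = {m | 2 ≤ m} ∧
      ∀ k, 4 ≤ k → Unions (PfinOne H) k = {m | 3 ≤ m} := by
  have hf : Finite H := Nat.finite_of_card_ne_zero (by omega)
  have hfin : ∀ x : H, ∃ N, 1 ≤ N ∧ x ^ N = 1 := fun x =>
    finite_order hN (fun h => by
      have := Finite.of_injective _ h
      exact not_finite ℕ)
  obtain ⟨g, hg⟩ := exists_group hfin
  subst hg
  exact unions_five_group hN h5

theorem unions_trivial {H : Type*} [Monoid H] [Subsingleton H] {k : ℕ} (hk : 1 ≤ k) :
    Unions (PfinOne H) k = ∅ := by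
  ext m
  rw [mem_unions]
  constructor
  · rintro ⟨X, h1, -⟩
    exfalso
    have hX : X = 1 := by
      by_contra h
      obtain ⟨x, -, hx⟩ := exists_ne_one h
      exact hx (Subsingleton.elim _ _)
    rw [hX, lengths_one] at h1
    have : k = 0 := h1
    omega
  · intro h
    exact absurd h (Set.notMem_empty m)

theorem unions_other {H : Type*} [Monoid H] (hN : NoSmallSquare H) [Nontrivial H]
    (h5 : Nat.card H ≠ 5) :
    Unions (PfinOne H) 1 = {1} ∧ ∀ k, 2 ≤ k → Unions (PfinOne H) k = {m | 2 ≤ m} :=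
  ⟨unions_one hN, fun _ hk => unions_eq hN (two_lengths hN h5) hk⟩

theorem isInterval_ge (c : ℕ) : IsInterval {m : ℕ | c ≤ m} :=
  ⟨c, ⊤, by ext m; simp⟩

theorem isInterval_Icc (a b : ℕ) : IsInterval {m : ℕ | a ≤ m ∧ m ≤ b} :=
  ⟨a, b, by ext m; simp⟩

theorem isInterval_unions {H : Type*} [Monoid H] {k : ℕ} (hk : 1 ≤ k) :
    IsInterval (Unions (PfinOne H) k) := by
  rcases subsingleton_or_nontrivial H with hs | hn
  · rw [unions_trivial hk]
    have h : (∅ : Set ℕ) = {m : ℕ | 1 ≤ m ∧ m ≤ 0} := by
      ext m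
      simp only [Set.mem_empty_iff_false, Set.mem_ofPred_eq, false_iff]
      omega
    rw [h]
    exact isInterval_Icc 1 0
  · have hone : IsInterval ({1} : Set ℕ) := by
      have h : ({1} : Set ℕ) = {m : ℕ | 1 ≤ m ∧ m ≤ 1} := by
        ext m
        simp only [Set.mem_singleton_iff, Set.mem_ofPred_eq]
        omega
      rw [h]
      exact isInterval_Icc 1 1
    by_cases hN : NoSmallSquare H
    · by_cases h5 : Nat.card H = 5
      · obtain ⟨h1, h2, h3, h4⟩ := unions_five hN h5
        rcases Nat.lt_or_ge k 4 with h | h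
        · have hk' : k = 1 ∨ k = 2 ∨ k = 3 := by omega
          rcases hk' with rfl | rfl | rfl
          · rw [h1]; exact hone
          · rw [h2]
            have h : ({2, 3} : Set ℕ) = {m : ℕ | 2 ≤ m ∧ m ≤ 3} := by
              ext m
              simp only [Set.mem_insert_iff, Set.mem_singleton_iff, Set.mem_ofPred_eq]
              omega
            rw [h]
            exact isInterval_Icc 2 3
          · rw [h3]; exact isInterval_ge 2
        · rw [h4 k h]; exact isInterval_ge 3
      · obtain ⟨h1, h2⟩ := unions_other hN h5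
        rcases Nat.lt_or_ge k 2 with h | h
        · have hk' : k = 1 := by omega
          subst hk'
          rw [h1]; exact hone
        · rw [h2 k h]; exact isInterval_ge 2
    · rw [unions_small (not_not.mp hN) hk]
      exact isInterval_ge 1

end Q43.PM
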