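import Pool.Agent.Q43.PM.Torsion

open Pointwise

namespace Q43.PM

theorem five_sets (X : Finset (ZMod 5)) : 0 ∈ X →
    X = {0} ∨ (∃ g : ZMod 5, g ≠ 0 ∧ X = {0, g}) ∨
      (∃ g h : ZMod 5, g ≠ 0 ∧ h ≠ 0 ∧ X = {0, g, h, g + h} ∧ X ≠ {0, g} ∧ X ≠ {0, h}) ∨
      X = Finset.univ := by
  revert X
  decide

theorem five_miss (g h : ZMod 5) : ∃ i : ZMod 5, i ≠ 0 ∧ i ≠ g ∧ i ≠ h ∧ i ≠ g + h := by
  revert g h
  decide

theorem five_cover (a b c d : ZMod 5) (ha : a ≠ 0) (hb : b ≠ 0) (hc : c ≠ 0) (hd : d ≠ 0)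
    (i : ZMod 5) : ∃ p q r s : ZMod 5, (p = 0 ∨ p = a) ∧ (q = 0 ∨ q = b) ∧ (r = 0 ∨ r = c) ∧
      (s = 0 ∨ s = d) ∧ p + q + r + s = i := by
  have key : ∀ a b c d : ZMod 5, a ≠ 0 → b ≠ 0 → c ≠ 0 → d ≠ 0 → ∀ i : ZMod 5,
      i ∈ (({0, a} : Finset (ZMod 5)) + {0, b} + {0, c} + {0, d} : Finset (ZMod 5)) := by
    decide +kernel
  have := key a b c d ha hb hc hd i
  simp only [Finset.mem_add, Finset.mem_insert, Finset.mem_singleton] at this
  obtain ⟨y, ⟨x, ⟨p, hp, q, hq, rfl⟩, r, hr, rfl⟩, s, hs, h⟩ := this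
  exact ⟨p, q, r, s, hp, hq, hr, hs, h⟩

section

variable {G : Type*} [Group G]

/-- A group of order `5` is the cyclic group of order `5`. -/
theorem exists_iso (h5 : Nat.card G = 5) : Nonempty (Multiplicative (ZMod 5) ≃* G) := by
  have : Fact (Nat.Prime 5) := ⟨by norm_num⟩
  have : IsCyclic G := isCyclic_of_prime_card h5
  have e := zmodCyclicMulEquiv (G := G) inferInstance
  rw [h5] at e
  exact ⟨e⟩

variable (e : Multiplicative (ZMod 5) ≃* G)

/-- The element of `G` with index `i`. -/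
def el (i : ZMod 5) : G := e (Multiplicative.ofAdd i)

theorem el_zero : el e 0 = 1 := by
  unfold el; rw [ofAdd_zero, map_one]

theorem el_add (i j : ZMod 5) : el e (i + j) = el e i * el e j := by
  unfold el; rw [ofAdd_add, map_mul]

theorem el_inj {i j : ZMod 5} (h : el e i = el e j) : i = j := by
  unfold el at h
  exact Multiplicative.ofAdd.injective (e.injective h)

theorem el_surj (g : G) : ∃ i, el e i = g :=
  ⟨Multiplicative.toAdd (e.symm g), by unfold el; simp⟩

theorem el_ne_one {i : ZMod 5} (h : i ≠ 0) : el e i ≠ 1 := by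
  rw [← el_zero e]
  exact fun h' => h (el_inj e h')

open Classical in
/-- The indices of the elements of `X`. -/
noncomputable def idx (X : PfinOne G) : Finset (ZMod 5) :=
  Finset.univ.filter fun i => el e i ∈ (X : Set G)

theorem mem_idx {X : PfinOne G} {i : ZMod 5} : i ∈ idx e X ↔ el e i ∈ (X : Set G) := by
  simp [idx]

theorem zero_idx (X : PfinOne G) : 0 ∈ idx e X := by
  rw [mem_idx, el_zero]; exact one_memP X

theorem idx_inj {X Y : PfinOne G} (h : idx e X = idx e Y) : X = Y := by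
  apply ext_of
  · intro g hg
    obtain ⟨i, rfl⟩ := el_surj e g
    rwa [← mem_idx, ← h, mem_idx]
  · intro g hg
    obtain ⟨i, rfl⟩ := el_surj e g
    rwa [← mem_idx, h, mem_idx]

theorem idx_pair (g : ZMod 5) : idx e (pair (el e g)) = {0, g} := by
  ext i
  rw [mem_idx, mem_pair, Finset.mem_insert, Finset.mem_singleton, ← el_zero e]
  constructor
  · rintro (h | h)
    · exact Or.inl (el_inj e h)
    · exact Or.inr (el_inj e h)
  · rintro (rfl | rfl)
    · exact Or.inl rfl
    · exact Or.inr rfl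

theorem idx_pair_mul (g h : ZMod 5) :
    idx e (pair (el e g) * pair (el e h)) = {0, g, h, g + h} := by
  ext i
  rw [mem_idx, mem_mulP]
  simp only [Finset.mem_insert, Finset.mem_singleton]
  constructor
  · rintro ⟨u, hu, v, hv, huv⟩
    rcases mem_pair.mp hu with rfl | rfl <;> rcases mem_pair.mp hv with rfl | rfl
    · left; apply el_inj e; rw [← huv, el_zero, one_mul]
    · right; right; left; apply el_inj e; rw [← huv, one_mul]
    · right; left; apply el_inj e; rw [← huv, mul_one]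
    · right; right; right; apply el_inj e; rw [← huv, el_add]
  · rintro (rfl | rfl | rfl | rfl)
    · exact ⟨1, one_memP _, 1, one_memP _, by rw [el_zero, one_mul]⟩
    · exact ⟨_, mem_pair.mpr (Or.inr rfl), 1, one_memP _, mul_one _⟩
    · exact ⟨1, one_memP _, _, mem_pair.mpr (Or.inr rfl), one_mul _⟩
    · exact ⟨_, mem_pair.mpr (Or.inr rfl), _, mem_pair.mpr (Or.inr rfl), (el_add e _ _).symm⟩

/-- In the group of order `5` the irreducibles have two elements. -/
theorem irred_five {X : PfinOne G} (hX : Irred X) : ∃ g : ZMod 5, g ≠ 0 ∧ X = pair (el e g) := by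
  have h1 := (irred_iff.mp hX).1
  have h2 := (irred_iff.mp hX).2
  rcases five_sets (idx e X) (zero_idx e X) with h | ⟨g, hg, h⟩ | ⟨g, k, hg, hk, h, h3, h4⟩ | h
  · exfalso
    obtain ⟨x, hx, hx1⟩ := exists_ne_one h1
    obtain ⟨i, rfl⟩ := el_surj e x
    have hi := (mem_idx e).mpr hx
    rw [h, Finset.mem_singleton] at hi
    rw [hi, el_zero] at hx1
    exact hx1 rfl
  · exact ⟨g, hg, idx_inj e (by rw [h, idx_pair])⟩
  · exfalso
    have hprod : X = pair (el e g) * pair (el e k) := idx_inj e (by rw [h, idx_pair_mul])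
    rcases h2 _ _ hprod with h' | h' | h' | h'
    · exact h3 (by rw [← h', idx_pair])
    · exact h4 (by rw [← h', idx_pair])
    · exact ne_one_of_mem (mem_pair.mpr (Or.inr rfl)) (el_ne_one e hg) h'
    · exact ne_one_of_mem (mem_pair.mpr (Or.inr rfl)) (el_ne_one e hk) h'
  · exfalso
    -- X is the whole group
    have hall : ∀ i, el e i ∈ (X : Set G) := fun i => by
      rw [← mem_idx, h]; exact Finset.mem_univ i
    have hp : powers (el e 1) 4 = X := by
      apply ext_of
      · intro y _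
        obtain ⟨i, rfl⟩ := el_surj e y
        exact hall i
      · intro y _
        obtain ⟨i, rfl⟩ := el_surj e y
        refine mem_powers.mpr ⟨i.val, ?_, ?_⟩
        · have := ZMod.val_lt i
          omega
        · unfold el
          rw [← map_pow, ← ofAdd_nsmul]
          congr 2
          rw [nsmul_one, ZMod.natCast_val, ZMod.cast_id]
    have hprod : X = pair (el e 1) ^ 3 * pair (el e 1) := by
      rw [← pow_succ, pair_pow, hp]
    have hlt : ∀ Y : PfinOne G, (∃ i, el e i ∉ (Y : Set G)) → Y ≠ X := by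
      rintro Y ⟨i, hi⟩ rfl
      exact hi (hall i)
    have h4 : el e 4 ∉ ((pair (el e 1) ^ 3 : PfinOne G) : Set G) := by
      rw [pair_pow]
      rintro ⟨i, hi, hi'⟩
      have h5 : (i : ZMod 5) = 4 := by
        apply el_inj e
        rw [← hi']
        show el e (i : ZMod 5) = (el e 1) ^ i
        unfold el
        rw [← map_pow, ← ofAdd_nsmul, nsmul_one]
      have hi3 : i ≤ 3 := hi
      interval_cases i <;> revert h5 <;> decide
    rcases h2 _ _ hprod with h' | h' | h' | h'
    · exact hlt _ ⟨4, h4⟩ h'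
    · refine hlt _ ⟨2, ?_⟩ h'
      rw [← mem_idx, idx_pair]
      decide
    · have h6 : el e 1 ∈ ((pair (el e 1) ^ 3 : PfinOne G) : Set G) := by
        rw [pair_pow]
        exact ⟨1, by simp, by simp⟩
      exact ne_one_of_mem h6 (el_ne_one e (i := 1) (by decide)) h'
    · exact ne_one_of_mem (mem_pair.mpr (Or.inr rfl)) (el_ne_one e (i := 1) (by decide)) h'

include e in
/-- A product of two irreducibles is not the whole group. -/
theorem two_not_univ {X : PfinOne G} (hX : 2 ∈ Lengths X) : ∃ g : G, g ∉ (X : Set G) := by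
  obtain ⟨w, hw, hp, hl⟩ := hX
  obtain ⟨a, b, rfl⟩ := List.length_eq_two.mp hl
  obtain ⟨g, hg, rfl⟩ := irred_five e (hw a (by simp))
  obtain ⟨h, hh, rfl⟩ := irred_five e (hw _ (List.mem_cons_of_mem _ List.mem_cons_self))
  obtain ⟨i, h0, h1, h2, h3⟩ := five_miss g h
  refine ⟨el e i, ?_⟩
  rw [← mem_idx, ← hp, List.prod_cons, List.prod_cons, List.prod_nil, mul_one, idx_pair_mul]
  simp only [Finset.mem_insert, Finset.mem_singleton, not_or]
  exact ⟨h0, h1, h2, h3⟩

include e in
/-- A product of at least four irreducibles is the whole group. -/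
theorem four_univ {X : PfinOne G} {m : ℕ} (hm : 4 ≤ m) (hX : m ∈ Lengths X) (g : G) :
    g ∈ (X : Set G) := by
  obtain ⟨w, hw, rfl, hl⟩ := hX
  rcases w with _ | ⟨a, _ | ⟨b, _ | ⟨c, _ | ⟨d, t⟩⟩⟩⟩
  · simp at hl; omega
  · simp at hl; omega
  · simp at hl; omega
  · simp at hl; omega
  · obtain ⟨i, rfl⟩ := el_surj e g
    obtain ⟨a', ha', rfl⟩ := irred_five e (hw a (by simp))
    obtain ⟨b', hb', rfl⟩ := irred_five e (hw b (by simp))
    obtain ⟨c', hc', rfl⟩ := irred_five e (hw c (by simp))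
    obtain ⟨d', hd', rfl⟩ := irred_five e (hw d (by simp))
    obtain ⟨p, q, r, s, hp, hq, hr, hs, hsum⟩ := five_cover a' b' c' d' ha' hb' hc' hd' i
    have aux : ∀ (p a : ZMod 5), (p = 0 ∨ p = a) → el e p ∈ (pair (el e a) : Set G) := by
      rintro p a (rfl | rfl)
      · rw [el_zero]; exact one_memP _
      · exact mem_pair.mpr (Or.inr rfl)
    simp only [List.prod_cons]
    refine mem_mulP.mpr ⟨_, aux p a' hp, _, mem_mulP.mpr ⟨_, aux q b' hq, _,
      mem_mulP.mpr ⟨_, aux r c' hr, _, mem_mulP.mpr ⟨_, aux s d' hs, 1, one_memP _, rfl⟩, rfl⟩,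
      rfl⟩, ?_⟩
    rw [← hsum, el_add, el_add, el_add, mul_one]
    simp only [mul_assoc]

end

end Q43.PM
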