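import Pool.Agent.Q43.PM.Basic

open Pointwise

namespace Q43.PM

variable {H : Type*} [Monoid H]

/-- The condition that no `x ≠ 1` has its square in `{1, x}`. -/
def NoSmallSquare (H : Type*) [Monoid H] : Prop :=
  ¬ ∃ x : H, x ≠ 1 ∧ (x * x = 1 ∨ x * x = x)

/-- First case: some `x ≠ 1` has its square in `{1, x}`. -/
theorem unions_small (h : ∃ x : H, x ≠ 1 ∧ (x * x = 1 ∨ x * x = x)) {k : ℕ} (hk : 1 ≤ k) :
    Unions (PfinOne H) k = {m | 1 ≤ m} := by
  obtain ⟨x, hx, hx2⟩ := h
  have hidem : pair x * pair x = pair x := by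
    apply ext_of
    · intro y hy
      obtain ⟨u, hu, v, hv, rfl⟩ := mem_mulP.mp hy
      rcases mem_pair.mp hu with rfl | rfl <;> rcases mem_pair.mp hv with rfl | rfl
      · exact mem_pair.mpr (Or.inl (one_mul _))
      · exact mem_pair.mpr (Or.inr (one_mul _))
      · exact mem_pair.mpr (Or.inr (mul_one _))
      · exact mem_pair.mpr hx2
    · exact subset_mul_left _ _
  have hpow : ∀ m : ℕ, 1 ≤ m → pair x ^ m = pair x := by
    intro m hm
    induction m, hm using Nat.le_induction with
    | base => exact pow_one _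
    | succ n hn ih => rw [pow_succ, ih, hidem]
  ext m
  constructor
  · intro hm
    by_contra h0
    have : m = 0 := by
      simp only [Set.mem_ofPred_eq] at h0
      omega
    subst this
    exact zero_notMem_unions hk hm
  · intro hm
    rw [mem_unions]
    refine ⟨pair x, ?_, ?_⟩
    · have := len_pow (irred_pair hx) k
      rwa [hpow k hk] at this
    · have := len_pow (irred_pair hx) m
      rwa [hpow m hm] at this

/-- Without such elements an irreducible has only itself as a factorization (right version). -/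
theorem no_right_fix (hN : NoSmallSquare H) {X : PfinOne H} (hX : Irred X) {y : H}
    (hy : y ∈ (X : Set H)) (hy1 : y ≠ 1) (hfix : ∀ z ∈ (X : Set H), z * y ∈ (X : Set H)) : False := by
  classical
  let T : PfinOne H := ⟨(X : Set H) \ {y}, (finiteP X).subset Set.sdiff_subset,
    ⟨one_memP X, fun h => hy1 (Set.mem_singleton_iff.mp h).symm⟩⟩
  have hT : ∀ z, z ∈ (T : Set H) ↔ z ∈ (X : Set H) ∧ z ≠ y := fun z => Iff.rfl
  have hprod : X = T * pair y := by
    apply ext_of
    · intro z hz
      by_cases hzy : z = y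
      · subst hzy
        exact mem_mulP.mpr ⟨1, one_memP T, z, mem_pair.mpr (Or.inr rfl), one_mul _⟩
      · exact mem_mulP.mpr ⟨z, (hT z).mpr ⟨hz, hzy⟩, 1, one_memP _, mul_one _⟩
    · intro z hz
      obtain ⟨u, hu, v, hv, rfl⟩ := mem_mulP.mp hz
      rcases mem_pair.mp hv with rfl | rfl
      · rw [mul_one]; exact ((hT u).mp hu).1
      · exact hfix u ((hT u).mp hu).1
  have hXpair : X = pair y := by
    rcases (irred_iff.mp hX).2 T (pair y) hprod with h | h | h | h
    · have : y ∈ (T : Set H) := by rw [h]; exact hy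
      exact absurd rfl ((hT y).mp this).2
    · exact h.symm
    · rw [h, one_mul] at hprod
      exact hprod
    · exact absurd h (ne_one_of_mem (mem_pair.mpr (Or.inr rfl)) hy1)
  have hyy := hfix y hy
  rw [hXpair] at hyy
  exact hN ⟨y, hy1, mem_pair.mp hyy⟩

theorem no_left_fix (hN : NoSmallSquare H) {X : PfinOne H} (hX : Irred X) {y : H}
    (hy : y ∈ (X : Set H)) (hy1 : y ≠ 1) (hfix : ∀ z ∈ (X : Set H), y * z ∈ (X : Set H)) : False := by
  classical
  let T : PfinOne H := ⟨(X : Set H) \ {y}, (finiteP X).subset Set.sdiff_subset,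
    ⟨one_memP X, fun h => hy1 (Set.mem_singleton_iff.mp h).symm⟩⟩
  have hT : ∀ z, z ∈ (T : Set H) ↔ z ∈ (X : Set H) ∧ z ≠ y := fun z => Iff.rfl
  have hprod : X = pair y * T := by
    apply ext_of
    · intro z hz
      by_cases hzy : z = y
      · subst hzy
        exact mem_mulP.mpr ⟨z, mem_pair.mpr (Or.inr rfl), 1, one_memP T, mul_one _⟩
      · exact mem_mulP.mpr ⟨1, one_memP _, z, (hT z).mpr ⟨hz, hzy⟩, one_mul _⟩
    · intro z hz
      obtain ⟨u, hu, v, hv, rfl⟩ := mem_mulP.mp hz
      rcases mem_pair.mp hu with rfl | rfl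
      · rw [one_mul]; exact ((hT v).mp hv).1
      · exact hfix v ((hT v).mp hv).1
  have hXpair : X = pair y := by
    rcases (irred_iff.mp hX).2 (pair y) T hprod with h | h | h | h
    · exact h.symm
    · have : y ∈ (T : Set H) := by rw [h]; exact hy
      exact absurd rfl ((hT y).mp this).2
    · exact absurd h (ne_one_of_mem (mem_pair.mpr (Or.inr rfl)) hy1)
    · rw [h, mul_one] at hprod
      exact hprod
  have hyy := hfix y hy
  rw [hXpair] at hyy
  exact hN ⟨y, hy1, mem_pair.mp hyy⟩

theorem len_of_irred (hN : NoSmallSquare H) {X : PfinOne H} (hX : Irred X) {m : ℕ}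
    (hm : m ∈ Lengths X) : m = 1 := by
  obtain ⟨w, hw, hp, rfl⟩ := hm
  cases w with
  | nil =>
    exfalso
    exact (irred_iff.mp hX).1 (by rw [← hp]; rfl)
  | cons a t =>
    cases t with
    | nil => rfl
    | cons b s =>
      exfalso
      rw [List.prod_cons] at hp
      set Y := (b :: s).prod with hY
      have haI : Irred a := hw a List.mem_cons_self
      have ha1 : a ≠ 1 := (irred_iff.mp haI).1
      have hY1 : Y ≠ 1 := by
        intro h
        have := word_empty (w := b :: s) (fun c hc => hw c (List.mem_cons_of_mem a hc))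
          (by rw [← hY, h]; exact unitDivisor_iff.mpr rfl)
        simp at this
      rcases (irred_iff.mp hX).2 a Y hp.symm with h | h | h | h
      · obtain ⟨y, hy, hy1⟩ := exists_ne_one hY1
        refine no_right_fix hN hX (y := y) ?_ hy1 ?_
        · rw [← hp]; exact subset_mul_right a Y hy
        · intro z hz
          rw [← hp]
          exact mem_mulP.mpr ⟨z, by rw [h]; exact hz, y, hy, rfl⟩
      · obtain ⟨y, hy, hy1⟩ := exists_ne_one ha1
        refine no_left_fix hN hX (y := y) ?_ hy1 ?_
        · rw [← hp]; exact subset_mul_left a Y hy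
        · intro z hz
          rw [← hp]
          exact mem_mulP.mpr ⟨y, hy, z, by rw [h]; exact hz, rfl⟩
      · exact ha1 h
      · exact hY1 h

theorem unions_one (hN : NoSmallSquare H) [Nontrivial H] : Unions (PfinOne H) 1 = {1} := by
  ext m
  rw [mem_unions]
  constructor
  · rintro ⟨X, h1, hm⟩
    exact len_of_irred hN (irred_of_len h1) hm
  · intro hm
    obtain ⟨z, hz⟩ := exists_ne (1 : H)
    have hm' : m = 1 := hm
    rw [hm']
    exact ⟨pair z, len_irred (irred_pair hz), len_irred (irred_pair hz)⟩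

theorem one_notMem_unions (hN : NoSmallSquare H) [Nontrivial H] {k : ℕ} (hk : 2 ≤ k) :
    1 ∉ Unions (PfinOne H) k := by
  intro h
  rw [unions_symm, unions_one hN] at h
  have : k = 1 := h
  omega

/-- If `2` and `j` are lengths of a common element for all `j ≥ 2`, everything is decided. -/
theorem unions_eq (hN : NoSmallSquare H) [Nontrivial H]
    (h : ∀ j, 2 ≤ j → ∃ X : PfinOne H, 2 ∈ Lengths X ∧ j ∈ Lengths X) {k : ℕ} (hk : 2 ≤ k) :
    Unions (PfinOne H) k = {m | 2 ≤ m} := by
  obtain ⟨z, hz⟩ := exists_ne (1 : H)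
  ext m
  constructor
  · intro hm
    by_contra hcon
    have hm2 : m < 2 := by
      simp only [Set.mem_ofPred_eq] at hcon
      omega
    interval_cases m
    · exact zero_notMem_unions (by omega) hm
    · exact one_notMem_unions hN hk hm
  · intro hm
    exact unions_of_two (irred_pair hz) h hk hm

/-- An element all whose powers are different. -/
theorem two_lengths_infinite {x : H} (hx : Function.Injective fun n : ℕ => x ^ n) {j : ℕ}
    (hj : 2 ≤ j) : ∃ X : PfinOne H, 2 ∈ Lengths X ∧ j ∈ Lengths X := by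
  have hx1 : x ≠ 1 := by
    intro h
    have : (1 : ℕ) = 0 := hx (by simp [h])
    omega
  have hx2 : x ^ 2 ≠ 1 := by
    intro h
    have : (2 : ℕ) = 0 := hx (by simpa using h)
    omega
  -- X is the set of the powers up to 2 t + 2
  have main : ∀ t : ℕ, 2 ∈ Lengths (powers x (2 * t + 2)) := by
    intro t
    let O : PfinOne H := ⟨insert 1 ((fun i => x ^ (2 * i + 1)) '' Set.Iic t),
      ((Set.finite_Iic t).image _).insert 1, Set.mem_insert 1 _⟩
    have hO : ∀ y, y ∈ (O : Set H) ↔ y = 1 ∨ ∃ i ≤ t, x ^ (2 * i + 1) = y := fun y => Iff.rfl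
    have hirr : Irred O := by
      refine irred_of_free O 1 x ((hO x).mpr (Or.inr ⟨0, by omega, by simp⟩)) hx1 hx1
        (by simpa using hx1) ?_
      intro u hu v hv hu1 hv1 huv
      exfalso
      rcases (hO u).mp hu with h | ⟨a, ha, rfl⟩
      · exact hu1 h
      rcases (hO v).mp hv with h | ⟨b, hb, rfl⟩
      · exact hv1 h
      rw [← pow_add] at huv
      rcases (hO _).mp huv with h | ⟨c, hc, h⟩
      · have : 2 * a + 1 + (2 * b + 1) = 0 := hx (by simpa using h)
        omega
      · have : 2 * c + 1 = 2 * a + 1 + (2 * b + 1) := hx h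
        omega
    have hprod : pair x * O = powers x (2 * t + 2) := by
      apply ext_of
      · intro y hy
        obtain ⟨u, hu, v, hv, rfl⟩ := mem_mulP.mp hy
        rcases mem_pair.mp hu with rfl | rfl
        · rcases (hO v).mp hv with rfl | ⟨b, hb, rfl⟩
          · exact mem_powers.mpr ⟨0, by omega, by simp⟩
          · exact mem_powers.mpr ⟨2 * b + 1, by omega, by simp⟩
        · rcases (hO v).mp hv with rfl | ⟨b, hb, rfl⟩
          · exact mem_powers.mpr ⟨1, by omega, by simp⟩
          · exact mem_powers.mpr ⟨2 * b + 2, by omega, pow_succ' _ _⟩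
      · intro y hy
        obtain ⟨i, hi, rfl⟩ := mem_powers.mp hy
        rcases Nat.even_or_odd' i with ⟨c, rfl | rfl⟩
        · rcases Nat.eq_zero_or_pos c with rfl | hc
          · exact mem_mulP.mpr ⟨1, one_memP _, 1, one_memP _, by simp⟩
          · refine mem_mulP.mpr ⟨x, mem_pair.mpr (Or.inr rfl), x ^ (2 * (c - 1) + 1),
              (hO _).mpr (Or.inr ⟨c - 1, by omega, rfl⟩), ?_⟩
            rw [← pow_succ']; congr 1; omega
        · rcases Nat.lt_or_ge t c with h | h
          · omega
          · exact mem_mulP.mpr ⟨1, one_memP _, x ^ (2 * c + 1),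
              (hO _).mpr (Or.inr ⟨c, h, rfl⟩), one_mul _⟩
    rw [← hprod]
    exact len_mul (len_irred (irred_pair hx1)) (len_irred hirr)
  rcases Nat.even_or_odd' j with ⟨c, rfl | rfl⟩
  · refine ⟨powers x (2 * (c - 1) + 2), main _, ?_⟩
    have := len_pow (irred_pair hx1) (2 * c)
    rw [pair_pow] at this
    rwa [show 2 * (c - 1) + 2 = 2 * c by omega]
  · refine ⟨powers x (2 * c + 2), main _, ?_⟩
    have h1 := len_pow (irred_pair hx1) (2 * c)
    rw [pair_pow] at h1
    have h2 := len_mul (len_irred (irred_pair hx2)) h1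
    rw [pair_sq_mul x (by omega)] at h2
    rwa [show 1 + 2 * c = 2 * c + 1 by omega] at h2

/-- If two powers of `x` agree then some positive power is idempotent. -/
theorem idempotent_power {x : H} (hx : ¬ Function.Injective fun n : ℕ => x ^ n) :
    ∃ N, 1 ≤ N ∧ x ^ N * x ^ N = x ^ N := by
  have : ∃ i p : ℕ, 1 ≤ p ∧ x ^ i = x ^ (i + p) := by
    simp only [Function.Injective] at hx
    push Not at hx
    obtain ⟨a, b, hab, hne⟩ := hx
    rcases Nat.lt_or_gt_of_ne hne with h | h
    · exact ⟨a, b - a, by omega, by rw [show a + (b - a) = b by omega]; exact hab⟩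
    · exact ⟨b, a - b, by omega, by rw [show b + (a - b) = a by omega]; exact hab.symm⟩
  obtain ⟨i, p, hp, hip⟩ := this
  have h1 : ∀ m, i ≤ m → x ^ (m + p) = x ^ m := by
    intro m hm
    obtain ⟨c, rfl⟩ := Nat.exists_eq_add_of_le hm
    rw [show i + c + p = i + p + c by omega, pow_add, ← hip, ← pow_add]
  have h2 : ∀ a m, i ≤ m → x ^ (m + a * p) = x ^ m := by
    intro a
    induction a with
    | zero => intro m _; simp
    | succ a ih =>
      intro m hm
      rw [show m + (a + 1) * p = (m + a * p) + p by ring, h1 _ (by omega), ih m hm]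
  refine ⟨(i + 1) * p, by nlinarith, ?_⟩
  rw [← pow_add]
  exact h2 (i + 1) _ (by nlinarith)

/-- Without small squares every element has different powers or finite order. -/
theorem finite_order (hN : NoSmallSquare H) {x : H}
    (hx : ¬ Function.Injective fun n : ℕ => x ^ n) : ∃ N, 1 ≤ N ∧ x ^ N = 1 := by
  obtain ⟨N, hN1, hN2⟩ := idempotent_power hx
  refine ⟨N, hN1, ?_⟩
  by_contra h
  exact hN ⟨x ^ N, h, Or.inr hN2⟩

end Q43.PM
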