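import Pool.Agent.Q43.PM.Main

open Pointwise

namespace Q43.PM

section Grp

variable {G : Type*} [Group G]

/-- `{1} ∪ y K` for a finite subgroup `K`. -/
def cosetSet (K : Subgroup G) (hK : (K : Set G).Finite) (y : G) : PfinOne G :=
  ⟨insert 1 ((fun c => y * c) '' (K : Set G)), (hK.image _).insert 1, Set.mem_insert 1 _⟩

theorem mem_cosetSet {K : Subgroup G} {hK : (K : Set G).Finite} {y z : G} :
    z ∈ (cosetSet K hK y : Set G) ↔ z = 1 ∨ ∃ c ∈ K, y * c = z := Iff.rfl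

theorem irred_cosetSet {K : Subgroup G} {hK : (K : Set G).Finite} {y : G} (hy : y ∉ K)
    (h5 : ∀ g : G, g ^ 5 = 1) : Irred (cosetSet K hK y) := by
  have hy1 : y ≠ 1 := fun h => hy (h ▸ K.one_mem)
  refine irred_of_free _ 1 y (mem_cosetSet.mpr (Or.inr ⟨1, K.one_mem, mul_one y⟩)) hy1 hy1
    (by simpa using hy1) ?_
  intro u hu v hv hu1 hv1 huv
  exfalso
  rcases mem_cosetSet.mp hu with h | ⟨a, ha, rfl⟩
  · exact hu1 h
  rcases mem_cosetSet.mp hv with h | ⟨b, hb, rfl⟩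
  · exact hv1 h
  rcases mem_cosetSet.mp huv with h | ⟨c, hc, h⟩
  · -- y a y b = 1
    have h1 : (y * a) * (y * a) ∈ K := by
      have : (y * a) * (y * a) = b⁻¹ * a := by
        have h2 : y * a * y = b⁻¹ := by
          rw [eq_inv_iff_mul_eq_one, ← h]; group
        rw [← mul_assoc, h2]
      rw [this]
      exact K.mul_mem (K.inv_mem hb) ha
    have h3 : y * a ∈ K := by
      have h4 : y * a = ((y * a) * (y * a)) ^ 3 := by
        rw [← pow_two, ← pow_mul, show 2 * 3 = 5 + 1 by norm_num, pow_succ, h5, one_mul]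
      rw [h4]
      exact K.pow_mem h1 3
    exact hy (by simpa using K.mul_mem h3 (K.inv_mem ha))
  · -- y c = y a y b
    have h1 : y = a⁻¹ * c * b⁻¹ := by
      have h2 : y * c = y * (a * y * b) := by rw [h]; group
      have h3 : c = a * y * b := mul_left_cancel h2
      rw [h3]; group
    exact hy (by rw [h1]; exact K.mul_mem (K.mul_mem (K.inv_mem ha) hc) (K.inv_mem hb))

/-- In a group of exponent `5` with an element outside a nontrivial finite subgroup. -/
theorem lengths_coset {K : Subgroup G} (hK : (K : Set G).Finite) {x y : G} (hx : x ∈ K)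
    (hx1 : x ≠ 1) (hy : y ∉ K) (h5 : ∀ g : G, g ^ 5 = 1) :
    ∃ X : PfinOne G, ∀ j, 2 ≤ j → j ∈ Lengths X := by
  have hy' : y⁻¹ ∉ K := fun h => hy (by simpa using K.inv_mem h)
  refine ⟨cosetSet K hK y * cosetSet K hK y⁻¹, fun j hj => ?_⟩
  refine lengths_absorbing (irred_cosetSet hy h5) (irred_cosetSet hy' h5) hx1 ?_ hj
  apply ext_of
  · intro z hz
    obtain ⟨w, hw, e, he, rfl⟩ := mem_mulP.mp hz
    obtain ⟨a, ha, b, hb, rfl⟩ := mem_mulP.mp hw
    rcases mem_pair.mp he with rfl | rfl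
    · rw [mul_one]; exact hw
    rcases mem_cosetSet.mp hb with rfl | ⟨c, hc, rfl⟩
    · rcases mem_cosetSet.mp ha with rfl | ⟨c, hc, rfl⟩
      · refine mem_mulP.mpr ⟨y, mem_cosetSet.mpr (Or.inr ⟨1, K.one_mem, mul_one y⟩), y⁻¹ * e,
          mem_cosetSet.mpr (Or.inr ⟨e, hx, rfl⟩), ?_⟩
        group
      · refine mem_mulP.mpr ⟨y * (c * e), mem_cosetSet.mpr (Or.inr ⟨c * e, K.mul_mem hc hx, rfl⟩),
          1, one_memP _, ?_⟩
        group
    · refine mem_mulP.mpr ⟨a, ha, y⁻¹ * (c * e),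
        mem_cosetSet.mpr (Or.inr ⟨c * e, K.mul_mem hc hx, rfl⟩), ?_⟩
      group
  · exact subset_mul_left _ _

/-- `{1} ∪ {x ^ i : a ≤ i ≤ b}`. -/
def seg (x : G) (a b : ℕ) : PfinOne G :=
  ⟨insert 1 ((fun i : ℕ => x ^ i) '' Set.Icc a b), ((Set.finite_Icc a b).image _).insert 1,
    Set.mem_insert 1 _⟩

theorem mem_seg {x z : G} {a b : ℕ} :
    z ∈ (seg x a b : Set G) ↔ z = 1 ∨ ∃ i, (a ≤ i ∧ i ≤ b) ∧ x ^ i = z := Iff.rfl

theorem pow_inj' {x : G} {i j : ℕ} (hi : i < orderOf x) (hj : j < orderOf x)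
    (h : x ^ i = x ^ j) : i = j :=
  pow_injOn_Iio_orderOf hi hj h

theorem irred_seg {x : G} {a b : ℕ} (hn : orderOf x = 2 * b + 1) (ha : 1 ≤ a) (hab : a ≤ b)
    (h : 2 * a = b + 1 ∨ (2 * a = b ∧ 2 ≤ a)) : Irred (seg x a b) := by
  have hone : ∀ i, 0 < i → i < 2 * b + 1 → x ^ i ≠ 1 := by
    intro i hi hi2 hcon
    have : i = 0 := pow_inj' (x := x) (by omega) (by omega) (by simpa using hcon)
    omega
  rcases h with h | ⟨h, h2⟩
  · refine irred_of_free _ 1 (x ^ a) (mem_seg.mpr (Or.inr ⟨a, ⟨le_rfl, hab⟩, rfl⟩))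
      (hone a (by omega) (by omega)) (hone a (by omega) (by omega))
      (by simpa using hone a (by omega) (by omega)) ?_
    intro u hu v hv hu1 hv1 huv
    exfalso
    rcases mem_seg.mp hu with h' | ⟨i, hi, rfl⟩
    · exact hu1 h'
    rcases mem_seg.mp hv with h' | ⟨j, hj, rfl⟩
    · exact hv1 h'
    rw [← pow_add] at huv
    rcases mem_seg.mp huv with h' | ⟨l, hl, h'⟩
    · exact hone (i + j) (by omega) (by omega) h'
    · have : l = i + j := pow_inj' (x := x) (by omega) (by omega) h'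
      omega
  · refine irred_of_free _ (x ^ a) (x ^ (a + 1))
      (mem_seg.mpr (Or.inr ⟨a + 1, ⟨by omega, by omega⟩, rfl⟩))
      (hone (a + 1) (by omega) (by omega)) ?_ ?_ ?_
    · intro hcon
      have : a + 1 = a := pow_inj' (x := x) (by omega) (by omega) hcon
      omega
    · intro hcon
      rw [← pow_add] at hcon
      have : a + 1 = a + a := pow_inj' (x := x) (by omega) (by omega) hcon
      omega
    intro u hu v hv hu1 hv1 huv
    rcases mem_seg.mp hu with h' | ⟨i, hi, rfl⟩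
    · exact absurd h' hu1
    rcases mem_seg.mp hv with h' | ⟨j, hj, rfl⟩
    · exact absurd h' hv1
    rw [← pow_add] at huv
    rcases mem_seg.mp huv with h' | ⟨l, hl, h'⟩
    · exact absurd h' (hone (i + j) (by omega) (by omega))
    · have hl' : l = i + j := pow_inj' (x := x) (by omega) (by omega) h'
      have hi' : i = a := by omega
      have hj' : j = a := by omega
      rw [hi', hj']
      exact ⟨rfl, rfl⟩

/-- An element of odd finite order different from `1` and `5`. -/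
theorem lengths_cyclic {x : G} (hodd : Odd (orderOf x)) (h1 : orderOf x ≠ 1)
    (h5 : orderOf x ≠ 5) : ∃ X : PfinOne G, ∀ j, 2 ≤ j → j ∈ Lengths X := by
  obtain ⟨b, hb⟩ := hodd
  have hb1 : 1 ≤ b := by omega
  have hb2 : b ≠ 2 := by omega
  obtain ⟨a, ha⟩ : ∃ a, a = (b + 1) / 2 := ⟨_, rfl⟩
  have ha1 : 1 ≤ a := by omega
  have hab : a ≤ b := by omega
  have hcase : 2 * a = b + 1 ∨ (2 * a = b ∧ 2 ≤ a) := by omega
  have hx1 : x ≠ 1 := by
    intro h; rw [h, orderOf_one] at h1; exact h1 rfl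
  have hinv : orderOf x⁻¹ = 2 * b + 1 := by rw [orderOf_inv, hb]
  have hinv2 : x⁻¹ = x ^ (2 * b) := by
    rw [inv_eq_iff_mul_eq_one, ← pow_succ', ← hb, pow_orderOf_eq_one]
  set X := seg x a b * seg x⁻¹ a b with hX
  have hall : ∀ k : ℕ, x ^ k ∈ (X : Set G) := by
    intro k
    rw [← pow_mod_orderOf, hb]
    have hk : k % (2 * b + 1) < 2 * b + 1 := Nat.mod_lt _ (by omega)
    generalize k % (2 * b + 1) = r at hk
    have hsub : ∀ s t : ℕ, t ≤ s → x ^ s * x⁻¹ ^ t = x ^ (s - t) := by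
      intro s t hst
      rw [inv_pow, mul_inv_eq_iff_eq_mul, ← pow_add]
      congr 1
      omega
    have hneg : ∀ t : ℕ, t ≤ 2 * b + 1 → x⁻¹ ^ t = x ^ (2 * b + 1 - t) := by
      intro t ht
      rw [inv_pow, inv_eq_iff_mul_eq_one, ← pow_add,
        show t + (2 * b + 1 - t) = 2 * b + 1 by omega, ← hb, pow_orderOf_eq_one]
    have hmemx : ∀ i, a ≤ i → i ≤ b → x ^ i ∈ (seg x a b : Set G) :=
      fun i h h' => mem_seg.mpr (Or.inr ⟨i, ⟨h, h'⟩, rfl⟩)
    have hmemy : ∀ i, a ≤ i → i ≤ b → x⁻¹ ^ i ∈ (seg x⁻¹ a b : Set G) :=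
      fun i h h' => mem_seg.mpr (Or.inr ⟨i, ⟨h, h'⟩, rfl⟩)
    rcases Nat.lt_or_ge r (b + 1) with hr | hr
    · rcases Nat.lt_or_ge r a with hra | hra
      · refine mem_mulP.mpr ⟨x ^ (a + r), hmemx _ (by omega) (by omega), x⁻¹ ^ a,
          hmemy _ le_rfl hab, ?_⟩
        rw [hsub _ _ (by omega)]
        congr 1; omega
      · exact mem_mulP.mpr ⟨x ^ r, hmemx _ hra (by omega), 1, one_memP _, mul_one _⟩
    · rcases Nat.lt_or_ge (2 * b + 1 - r) a with hra | hra
      · refine mem_mulP.mpr ⟨x ^ a, hmemx _ le_rfl hab, x⁻¹ ^ (a + (2 * b + 1 - r)),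
          hmemy _ (by omega) (by omega), ?_⟩
        rw [hneg _ (by omega), ← pow_add, show a + (2 * b + 1 - (a + (2 * b + 1 - r))) = r by omega]
      · refine mem_mulP.mpr ⟨1, one_memP _, x⁻¹ ^ (2 * b + 1 - r), hmemy _ hra (by omega), ?_⟩
        rw [one_mul, hneg _ (by omega)]
        congr 1; omega
  have hpow : ∀ y ∈ (X : Set G), ∃ k : ℕ, x ^ k = y := by
    intro y hy
    obtain ⟨u, hu, v, hv, rfl⟩ := mem_mulP.mp hy
    have h1 : ∃ k : ℕ, x ^ k = u := by
      rcases mem_seg.mp hu with rfl | ⟨i, -, rfl⟩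
      · exact ⟨0, pow_zero x⟩
      · exact ⟨i, rfl⟩
    have h2 : ∃ k : ℕ, x ^ k = v := by
      rcases mem_seg.mp hv with rfl | ⟨i, -, rfl⟩
      · exact ⟨0, pow_zero x⟩
      · exact ⟨2 * b * i, by rw [hinv2, pow_mul]⟩
    obtain ⟨k, rfl⟩ := h1
    obtain ⟨l, rfl⟩ := h2
    exact ⟨k + l, pow_add _ _ _⟩
  refine ⟨X, fun j hj => ?_⟩
  refine lengths_absorbing (irred_seg hb ha1 hab hcase) (irred_seg hinv ha1 hab hcase) hx1 ?_ hj
  apply ext_of
  · intro z hz
    obtain ⟨w, hw, e, he, rfl⟩ := mem_mulP.mp hz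
    rcases mem_pair.mp he with rfl | rfl
    · rw [mul_one]; exact hw
    · obtain ⟨k, rfl⟩ := hpow w hw
      rw [← pow_succ]
      exact hall _
  · exact subset_mul_left _ _

end Grp

end Q43.PM
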